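import Pool.Agent.Helper8.SPV.Stmts3

/-!
# PRES0-PRES3: presentations of the four charts
-/

set_option autoImplicit false

open Polynomial

namespace Pool.Agent.Helper8.SPV

/-! ### linear independence of powers over a rational function field -/

/-- `1, θ, …, θ^(d-1)` are linearly independent over `E(u)` -/
def PRES_LI (E L : Type) [Field E] [Field L] [Algebra E L] (u θ : L) (d : ℕ) : Prop :=
  ∀ R : E[X][X], R.degree < d → R.eval₂ (aeval u : E[X] →ₐ[E] L).toRingHom θ = 0 → R = 0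

section LI

variable {E L : Type} [Field E] [Field L] [Algebra E L]

theorem PRES_LI_aff {a q : E} {x y : L} (hx : Transcendental E x)
    (h : y ^ 2 = x ^ 3 + algebraMap E L a * x + algebraMap E L q) : PRES_LI E L x y 2 := by
  intro R hR hR0
  have hR1 : R = C (R.coeff 1) * X + C (R.coeff 0) := by
    apply Polynomial.eq_X_add_C_of_degree_le_one
    exact Order.le_of_lt_succ hR
  set r1 := R.coeff 1
  set r0 := R.coeff 0
  rw [hR1] at hR0
  have hR0' : aeval x r1 * y + aeval x r0 = 0 := by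
    simpa using hR0
  have hinj := transcendental_iff_injective.mp hx
  have hpoly : r0 ^ 2 = r1 ^ 2 * (X ^ 3 + (C a * X + C q)) := by
    apply hinj
    simp only [map_pow, map_mul, map_add, aeval_X, aeval_C]
    have : aeval x r0 = -(aeval x r1 * y) := by linear_combination hR0'
    rw [this]
    linear_combination (aeval x r1) ^ 2 * h
  have hmon : (X ^ 3 + (C a * X + C q) : E[X]).natDegree = 3 := by
    compute_degree!
  have hne : (X ^ 3 + (C a * X + C q) : E[X]) ≠ 0 := by
    intro h0; rw [h0] at hmon; simp at hmon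
  by_cases h1 : r1 = 0
  · have h2 : r0 = 0 := by
      rw [h1] at hpoly
      simpa using hpoly
    rw [hR1, h1, h2]; simp
  · exfalso
    have := congrArg natDegree hpoly
    rw [natDegree_pow, natDegree_mul (pow_ne_zero 2 h1) hne, natDegree_pow, hmon] at this
    omega

theorem PRES_LI_inf {a q : E} {v z : L} (hv : Transcendental E v)
    (h : z ^ 3 + algebraMap E L a * v ^ 2 * z + algebraMap E L q * v ^ 3 - v = 0) :
    PRES_LI E L v z 3 := by
  intro R hR hR0
  by_contra hne
  set f : E[X][X] := X ^ 3 + (C (C a * X ^ 2) * X + C (C q * X ^ 3 - X)) with hf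
  have hdeg : (C (C a * X ^ 2) * X + C (C q * X ^ 3 - X) : E[X][X]).degree < 3 :=
    lt_of_le_of_lt degree_linear_le (by norm_num)
  have hmonic : f.Monic := monic_X_pow_add (n := 3) (by exact_mod_cast hdeg)
  have hnat : f.natDegree = 3 := by
    have : f.degree = 3 := by
      rw [hf, degree_add_eq_left_of_degree_lt] <;> rw [degree_X_pow]
      · rfl
      · exact_mod_cast hdeg
    exact natDegree_eq_of_degree_eq_some this
  have hc0 : f.coeff 0 = C q * X ^ 3 - X := by
    simp only [hf, coeff_add, coeff_X_pow, coeff_C_mul, coeff_X, coeff_C]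
    simp only [OfNat.zero_ne_ofNat, one_ne_zero, if_false, if_true, mul_zero, zero_add]
  have hc1 : f.coeff 1 = C a * X ^ 2 := by
    simp only [hf, coeff_add, coeff_X_pow, coeff_C_mul, coeff_X, coeff_C]
    simp only [OfNat.one_ne_ofNat, one_ne_zero, if_false, if_true, mul_one, zero_add, add_zero]
  have hc2 : f.coeff 2 = 0 := by
    simp only [hf, coeff_add, coeff_X_pow, coeff_C_mul, coeff_X, coeff_C]
    simp
  have heis : f.IsEisensteinAt (Ideal.span {(X : E[X])}) := by
    refine ⟨?_, ?_, ?_⟩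
    · rw [hmonic.leadingCoeff, Ideal.mem_span_singleton]
      intro h
      have := isUnit_of_dvd_one h
      exact not_isUnit_X this
    · intro n hn
      rw [hnat] at hn
      rw [Ideal.mem_span_singleton]
      interval_cases n
      · rw [hc0]; exact ⟨C q * X ^ 2 - 1, by ring⟩
      · rw [hc1]; exact ⟨C a * X, by ring⟩
      · rw [hc2]; exact dvd_zero _
    · rw [Ideal.span_singleton_pow, Ideal.mem_span_singleton, hc0]
      intro h
      rw [X_pow_dvd_iff] at h
      have := h 1 (by norm_num)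
      simp [coeff_X] at this
  have hirr : Irreducible f := by
    refine heis.irreducible ?_ hmonic.isPrimitive (by rw [hnat]; norm_num)
    rw [Ideal.span_singleton_prime X_ne_zero]
    exact prime_X
  let K := FractionRing E[X]
  have hirrK : Irreducible (f.map (algebraMap E[X] K)) :=
    (hmonic.irreducible_iff_irreducible_map_fraction_map).mp hirr
  have hinjK : Function.Injective (algebraMap E[X] K) := IsFractionRing.injective _ _
  have hRK : R.map (algebraMap E[X] K) ≠ 0 := by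
    rwa [Ne, Polynomial.map_eq_zero_iff hinjK]
  have hcop : IsCoprime (f.map (algebraMap E[X] K)) (R.map (algebraMap E[X] K)) := by
    refine (hirrK.coprime_iff_not_dvd).mpr fun hdvd => ?_
    have := degree_le_of_dvd hdvd hRK
    rw [degree_map_eq_of_injective hinjK, degree_map_eq_of_injective hinjK,
      degree_eq_natDegree hmonic.ne_zero, hnat] at this
    exact absurd hR (not_lt.mpr (by exact_mod_cast this))
  obtain ⟨α, β, hαβ⟩ := hcop
  have hinj : Function.Injective (aeval v : E[X] →ₐ[E] L).toRingHom :=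
    transcendental_iff_injective.mp hv
  let ψ : K →+* L := IsFractionRing.lift hinj
  have hψ : ψ.comp (algebraMap E[X] K) = (aeval v : E[X] →ₐ[E] L).toRingHom := by
    ext p
    · simp [ψ, IsFractionRing.lift_algebraMap]
    · simp [ψ, IsFractionRing.lift_algebraMap]
  have hev := congrArg (fun p : K[X] => p.eval₂ ψ z) hαβ
  simp only [eval₂_add, eval₂_mul, eval₂_map, hψ, hR0, mul_zero, add_zero, eval₂_one] at hev
  have hf0 : f.eval₂ (aeval v : E[X] →ₐ[E] L).toRingHom z = 0 := by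
    simp only [hf, eval₂_add, eval₂_pow, eval₂_X, eval₂_mul, eval₂_C]
    simp only [AlgHom.toRingHom_eq_coe, RingHom.coe_coe, map_mul, map_sub, map_pow, aeval_X, aeval_C]
    linear_combination h
  rw [hf0, mul_zero] at hev
  exact zero_ne_one hev

end LI

/-! ### the division step -/

section step

variable {A E L : Type} [CommRing A] [Nontrivial A] [Field E] [Field L] [Algebra E L]

/-- evaluation -/
noncomputable def PRES_ev (φ : A →+* E) (u θ : L) : A[X][X] →+* L :=
  eval₂RingHom (eval₂RingHom ((algebraMap E L).comp φ) u) θ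

theorem PRES_step (φ : A →+* E) (u θ : L) (d : ℕ) (hLI : PRES_LI E L u θ d) (f : A[X][X])
    (hf : f.Monic) (hd : f.natDegree = d) (hf0 : PRES_ev φ u θ f = 0) (P : A[X][X])
    (hP : PRES_ev φ u θ P = 0) :
    ∃ H R : A[X][X], P = f * H + R ∧ ∀ i j, φ ((R.coeff i).coeff j) = 0 := by
  refine ⟨P /ₘ f, P %ₘ f, ?_, ?_⟩
  · rw [add_comm]; exact (modByMonic_add_div P f).symm
  · set R := P %ₘ f with hR
    have h1 : PRES_ev φ u θ R = 0 := by
      have := congrArg (PRES_ev φ u θ) (modByMonic_add_div P f)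
      rw [map_add, map_mul, hf0, zero_mul, add_zero, hP] at this
      exact this
    have h2 : (aeval u : E[X] →ₐ[E] L).toRingHom.comp (mapRingHom φ) =
        eval₂RingHom ((algebraMap E L).comp φ) u := by
      ext p
      · simp
      · simp
    have h3 : (R.map (mapRingHom φ)).eval₂ (aeval u : E[X] →ₐ[E] L).toRingHom θ = 0 := by
      rw [eval₂_map, h2]
      exact h1
    have h4 : (R.map (mapRingHom φ)).degree < d := by
      refine lt_of_le_of_lt degree_map_le ?_
      rw [← hd, ← degree_eq_natDegree hf.ne_zero]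
      exact degree_modByMonic_lt P hf
    have h5 := hLI _ h4 h3
    intro i j
    have := congrArg (fun p : E[X][X] => (p.coeff i).coeff j) h5
    simpa using this

end step

/-! ### two variables over `k` -/

section two

variable {k L : Type} [Field k] [Field L] [Algebra k L]

theorem PRES_two (u θ : L) (d : ℕ) (hLI : PRES_LI k L u θ d) (F : k[X][X]) (hF : F.Monic)
    (hd : F.natDegree = d) (hF0 : PRES_ev (RingHom.id k) u θ F = 0) (i o : Fin 2) (hio : i ≠ o)
    (c : Fin 2 → L) (hci : c i = u) (hco : c o = θ) (Q : MvPolynomial (Fin 2) k)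
    (hQ : MvPolynomial.aeval c Q = 0) :
    Q ∈ Ideal.span {(eval₂RingHom (eval₂RingHom MvPolynomial.C (MvPolynomial.X i))
      (MvPolynomial.X o) F : MvPolynomial (Fin 2) k)} := by
  set Θ : k[X][X] →+* MvPolynomial (Fin 2) k :=
    eval₂RingHom (eval₂RingHom MvPolynomial.C (MvPolynomial.X i)) (MvPolynomial.X o) with hΘ
  let g : Fin 2 → k[X][X] := fun l => if l = i then C X else X
  let Ψ : MvPolynomial (Fin 2) k →+* k[X][X] := MvPolynomial.eval₂Hom (C.comp C) g
  have hcase : ∀ l : Fin 2, l = i ∨ l = o := by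
    intro l
    fin_cases i <;> fin_cases o <;> fin_cases l <;> simp_all
  have h1 : Θ.comp Ψ = RingHom.id _ := by
    apply MvPolynomial.ringHom_ext
    · intro r
      simp [Ψ, hΘ]
    · intro l
      rcases hcase l with rfl | rfl
      · simp [Ψ, hΘ, g]
      · simp [Ψ, hΘ, g, hio.symm]
  have h2 : (PRES_ev (RingHom.id k) u θ).comp Ψ = (MvPolynomial.aeval c : _ →ₐ[k] L).toRingHom := by
    apply MvPolynomial.ringHom_ext
    · intro r
      simp [Ψ, PRES_ev]
    · intro l
      rcases hcase l with rfl | rfl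
      · simp [Ψ, PRES_ev, g, hci]
      · simp [Ψ, PRES_ev, g, hio.symm, hco]
  have h3 : PRES_ev (RingHom.id k) u θ (Ψ Q) = 0 := by
    have := RingHom.congr_fun h2 Q
    rw [RingHom.comp_apply] at this
    rw [this]; exact hQ
  obtain ⟨H, R, hHR, hR⟩ := PRES_step (RingHom.id k) u θ d hLI F hF hd hF0 (Ψ Q) h3
  have hR0 : R = 0 := by
    ext a b
    simpa using hR a b
  have h4 : Q = Θ F * Θ H := by
    have := RingHom.congr_fun h1 Q
    rw [RingHom.comp_apply, RingHom.id_apply, hHR, hR0, add_zero, map_mul] at this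
    exact this.symm
  rw [h4, Ideal.mem_span_singleton]
  exact dvd_mul_right _ _

/-- the affine equation -/
theorem PRES_two_aff {a q : k} {x y : L} (hx : Transcendental k x)
    (h : y ^ 2 = x ^ 3 + algebraMap k L a * x + algebraMap k L q) (i o : Fin 2) (hio : i ≠ o)
    (c : Fin 2 → L) (hci : c i = x) (hco : c o = y) (Q : MvPolynomial (Fin 2) k)
    (hQ : MvPolynomial.aeval c Q = 0) :
    Q ∈ Ideal.span {(MvPolynomial.X o ^ 2 - (MvPolynomial.X i ^ 3 +
      MvPolynomial.C a * MvPolynomial.X i + MvPolynomial.C q) : MvPolynomial (Fin 2) k)} := by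
  have key := PRES_two x y 2 (PRES_LI_aff hx h) (X ^ 2 + C (-(X ^ 3 + C a * X + C q)))
    (monic_X_pow_add_C _ (by norm_num)) (natDegree_X_pow_add_C)
    (by
      simp only [PRES_ev, coe_eval₂RingHom, eval₂_add, eval₂_pow, eval₂_X, eval₂_C, eval₂_neg,
        eval₂_mul, RingHom.comp_apply, RingHom.id_apply]
      linear_combination h) i o hio c hci hco Q hQ
  have e : (eval₂RingHom (eval₂RingHom MvPolynomial.C (MvPolynomial.X i))
      (MvPolynomial.X o) (X ^ 2 + C (-(X ^ 3 + C a * X + C q))) : MvPolynomial (Fin 2) k) =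
      MvPolynomial.X o ^ 2 - (MvPolynomial.X i ^ 3 +
      MvPolynomial.C a * MvPolynomial.X i + MvPolynomial.C q) := by
    simp only [coe_eval₂RingHom, eval₂_add, eval₂_pow, eval₂_X, eval₂_C, eval₂_neg,
        eval₂_mul]
    ring
  rwa [e] at key

/-- the equation at infinity -/
theorem PRES_two_inf {a q : k} {v z : L} (hv : Transcendental k v)
    (h : z ^ 3 + algebraMap k L a * v ^ 2 * z + algebraMap k L q * v ^ 3 - v = 0)
    (i o : Fin 2) (hio : i ≠ o)
    (c : Fin 2 → L) (hci : c i = v) (hco : c o = z) (Q : MvPolynomial (Fin 2) k)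
    (hQ : MvPolynomial.aeval c Q = 0) :
    Q ∈ Ideal.span {(MvPolynomial.X i - MvPolynomial.X o ^ 3 -
      MvPolynomial.C a * MvPolynomial.X o * MvPolynomial.X i ^ 2 -
      MvPolynomial.C q * MvPolynomial.X i ^ 3 : MvPolynomial (Fin 2) k)} := by
  have hdeg : (C (C a * X ^ 2) * X + C (C q * X ^ 3 - X) : k[X][X]).degree < 3 :=
    lt_of_le_of_lt degree_linear_le (by norm_num)
  have hnat : (X ^ 3 + (C (C a * X ^ 2) * X + C (C q * X ^ 3 - X)) : k[X][X]).natDegree = 3 := by
    apply natDegree_eq_of_degree_eq_some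
    rw [degree_add_eq_left_of_degree_lt, degree_X_pow]
    rw [degree_X_pow]
    exact_mod_cast hdeg
  have key := PRES_two v z 3 (PRES_LI_inf hv h)
    (X ^ 3 + (C (C a * X ^ 2) * X + C (C q * X ^ 3 - X)))
    (monic_X_pow_add (n := 3) (by exact_mod_cast hdeg)) hnat
    (by
      simp only [PRES_ev, coe_eval₂RingHom, eval₂_add, eval₂_pow, eval₂_X, eval₂_C, eval₂_sub,
        eval₂_mul, RingHom.comp_apply, RingHom.id_apply]
      linear_combination h) i o hio c hci hco Q hQ
  have e : (eval₂RingHom (eval₂RingHom MvPolynomial.C (MvPolynomial.X i))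
      (MvPolynomial.X o) (X ^ 3 + (C (C a * X ^ 2) * X + C (C q * X ^ 3 - X))) :
      MvPolynomial (Fin 2) k) =
      -(MvPolynomial.X i - MvPolynomial.X o ^ 3 -
      MvPolynomial.C a * MvPolynomial.X o * MvPolynomial.X i ^ 2 -
      MvPolynomial.C q * MvPolynomial.X i ^ 3) := by
    simp only [coe_eval₂RingHom, eval₂_add, eval₂_pow, eval₂_X, eval₂_C, eval₂_sub,
        eval₂_mul]
    ring
  rw [e, Ideal.span_singleton_neg] at key
  exact key

end two

/-! ### four variables -/

section four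

variable {k : Type} [Field k]

/-- inclusion of the polynomials in the first two variables -/
noncomputable def PRES_io (k : Type) [Field k] : MvPolynomial (Fin 2) k →ₐ[k] MvPolynomial (Fin 4) k :=
  MvPolynomial.aeval ![MvPolynomial.X 0, MvPolynomial.X 1]

variable {E L : Type} [Field E] [Field L] [Algebra E L] [Algebra k L]

theorem PRES_four (c : Fin 4 → L) (φ : MvPolynomial (Fin 2) k →+* E)
    (hφ : ∀ Q, algebraMap E L (φ Q) = MvPolynomial.aeval ![c 0, c 1] Q)
    (f0 : MvPolynomial (Fin 2) k)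
    (hker : ∀ Q : MvPolynomial (Fin 2) k, MvPolynomial.aeval ![c 0, c 1] Q = 0 → Q ∈ Ideal.span {f0})
    (i o : Fin 4) (hio : i ≠ o) (hi2 : ∀ l : Fin 4, l = 0 ∨ l = 1 ∨ l = i ∨ l = o)
    (hi0 : i ≠ 0) (hi1 : i ≠ 1) (ho0 : o ≠ 0) (ho1 : o ≠ 1)
    (d : ℕ) (hLI : PRES_LI E L (c i) (c o) d)
    (F : (MvPolynomial (Fin 2) k)[X][X]) (hF : F.Monic)
    (hd : F.natDegree = d) (hF0 : PRES_ev φ (c i) (c o) F = 0)
    (f1 : MvPolynomial (Fin 4) k)
    (hf1 : Ideal.span {(eval₂RingHom (eval₂RingHom (PRES_io k).toRingHom (MvPolynomial.X i))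
      (MvPolynomial.X o) F : MvPolynomial (Fin 4) k)} ≤ Ideal.span {f1})
    (P : MvPolynomial (Fin 4) k) (hP : MvPolynomial.aeval c P = 0) :
    P ∈ Ideal.span (Set.range ![PRES_io k f0, f1]) := by
  set Θ : (MvPolynomial (Fin 2) k)[X][X] →+* MvPolynomial (Fin 4) k :=
    eval₂RingHom (eval₂RingHom (PRES_io k).toRingHom (MvPolynomial.X i)) (MvPolynomial.X o) with hΘ
  let g : Fin 4 → (MvPolynomial (Fin 2) k)[X][X] := fun l =>
    if l = 0 then C (C (MvPolynomial.X 0)) else if l = 1 then C (C (MvPolynomial.X 1)) else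
      if l = i then C X else X
  let Ψ : MvPolynomial (Fin 4) k →+* (MvPolynomial (Fin 2) k)[X][X] :=
    MvPolynomial.eval₂Hom ((C.comp C).comp MvPolynomial.C) g
  have h1 : Θ.comp Ψ = RingHom.id _ := by
    apply MvPolynomial.ringHom_ext
    · intro r
      simp [Ψ, hΘ, PRES_io]
    · intro l
      rcases hi2 l with rfl | rfl | rfl | rfl
      · simp [Ψ, hΘ, g, PRES_io]
      · simp [Ψ, hΘ, g, PRES_io]
      · simp [Ψ, hΘ, g, hi0, hi1]
      · simp [Ψ, hΘ, g, ho0, ho1, hio.symm]
  have h2 : (PRES_ev φ (c i) (c o)).comp Ψ = (MvPolynomial.aeval c : _ →ₐ[k] L).toRingHom := by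
    apply MvPolynomial.ringHom_ext
    · intro r
      simp [Ψ, PRES_ev, hφ]
    · intro l
      rcases hi2 l with rfl | rfl | rfl | rfl
      · simp [Ψ, PRES_ev, g, hφ]
      · simp [Ψ, PRES_ev, g, hφ]
      · simp [Ψ, PRES_ev, g, hi0, hi1]
      · simp [Ψ, PRES_ev, g, ho0, ho1, hio.symm]
  have h3 : PRES_ev φ (c i) (c o) (Ψ P) = 0 := by
    have := RingHom.congr_fun h2 P
    rw [RingHom.comp_apply] at this
    rw [this]; exact hP
  obtain ⟨H, R, hHR, hR⟩ := PRES_step φ (c i) (c o) d hLI F hF hd hF0 (Ψ P) h3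
  have h4 : P = Θ F * Θ H + Θ R := by
    have := RingHom.congr_fun h1 P
    rw [RingHom.comp_apply, RingHom.id_apply, hHR, map_add, map_mul] at this
    exact this.symm
  have hm0 : PRES_io k f0 ∈ Ideal.span (Set.range ![PRES_io k f0, f1]) :=
    Ideal.subset_span ⟨0, rfl⟩
  have hm1 : f1 ∈ Ideal.span (Set.range ![PRES_io k f0, f1]) :=
    Ideal.subset_span ⟨1, rfl⟩
  rw [h4]
  refine add_mem (Ideal.mul_mem_right _ _ ?_) ?_
  · have h5 : Θ F ∈ Ideal.span {f1} := hf1 (Ideal.subset_span rfl)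
    rw [Ideal.mem_span_singleton] at h5
    obtain ⟨c', hc'⟩ := h5
    rw [hc']
    exact Ideal.mul_mem_right _ _ hm1
  · have h6 : ∀ a b, PRES_io k ((R.coeff a).coeff b) ∈
        Ideal.span (Set.range ![PRES_io k f0, f1]) := by
      intro a b
      have h7 : (R.coeff a).coeff b ∈ Ideal.span {f0} := by
        apply hker
        rw [← hφ, hR, map_zero]
      rw [Ideal.mem_span_singleton] at h7
      obtain ⟨c', hc'⟩ := h7
      rw [hc', map_mul]
      exact Ideal.mul_mem_right _ _ hm0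
    rw [hΘ, coe_eval₂RingHom, eval₂_eq_sum_range]
    refine sum_mem fun a _ => Ideal.mul_mem_right _ _ ?_
    rw [coe_eval₂RingHom, eval₂_eq_sum_range]
    exact sum_mem fun b _ => Ideal.mul_mem_right _ _ (h6 a b)

theorem PRES_four_aff (c : Fin 4 → L) (φ : MvPolynomial (Fin 2) k →+* E)
    (hφ : ∀ Q, algebraMap E L (φ Q) = MvPolynomial.aeval ![c 0, c 1] Q)
    (f0 : MvPolynomial (Fin 2) k)
    (hker : ∀ Q : MvPolynomial (Fin 2) k, MvPolynomial.aeval ![c 0, c 1] Q = 0 → Q ∈ Ideal.span {f0})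
    (a q : MvPolynomial (Fin 2) k) (hx : Transcendental E (c 2))
    (h : c 3 ^ 2 = c 2 ^ 3 + algebraMap E L (φ a) * c 2 + algebraMap E L (φ q))
    (P : MvPolynomial (Fin 4) k) (hP : MvPolynomial.aeval c P = 0) :
    P ∈ Ideal.span (Set.range ![PRES_io k f0, MvPolynomial.X 3 ^ 2 - MvPolynomial.X 2 ^ 3 -
      PRES_io k a * MvPolynomial.X 2 - PRES_io k q]) := by
  refine PRES_four c φ hφ f0 hker 2 3 (by decide) (by decide) (by decide) (by decide) (by decide)
    (by decide) 2 (PRES_LI_aff hx h) (X ^ 2 + C (-(X ^ 3 + C a * X + C q)))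
    (monic_X_pow_add_C _ (by norm_num)) (natDegree_X_pow_add_C) ?_ _ ?_ P hP
  · simp only [PRES_ev, coe_eval₂RingHom, eval₂_add, eval₂_pow, eval₂_X, eval₂_C, eval₂_neg,
        eval₂_mul, RingHom.comp_apply]
    linear_combination h
  · apply le_of_eq
    congr 2
    simp only [coe_eval₂RingHom, eval₂_add, eval₂_pow, eval₂_X, eval₂_C, eval₂_neg, eval₂_mul,
      AlgHom.toRingHom_eq_coe, RingHom.coe_coe]
    ring

theorem PRES_four_inf (c : Fin 4 → L) (φ : MvPolynomial (Fin 2) k →+* E)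
    (hφ : ∀ Q, algebraMap E L (φ Q) = MvPolynomial.aeval ![c 0, c 1] Q)
    (f0 : MvPolynomial (Fin 2) k)
    (hker : ∀ Q : MvPolynomial (Fin 2) k, MvPolynomial.aeval ![c 0, c 1] Q = 0 → Q ∈ Ideal.span {f0})
    (a q : MvPolynomial (Fin 2) k) (hv : Transcendental E (c 3))
    (h : c 2 ^ 3 + algebraMap E L (φ a) * c 3 ^ 2 * c 2 + algebraMap E L (φ q) * c 3 ^ 3 - c 3 = 0)
    (P : MvPolynomial (Fin 4) k) (hP : MvPolynomial.aeval c P = 0) :
    P ∈ Ideal.span (Set.range ![PRES_io k f0, MvPolynomial.X 3 - MvPolynomial.X 2 ^ 3 -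
      PRES_io k a * MvPolynomial.X 2 * MvPolynomial.X 3 ^ 2 -
      PRES_io k q * MvPolynomial.X 3 ^ 3]) := by
  have hdeg : (C (C a * X ^ 2) * X + C (C q * X ^ 3 - X) :
      (MvPolynomial (Fin 2) k)[X][X]).degree < 3 :=
    lt_of_le_of_lt degree_linear_le (by norm_num)
  have hnat : (X ^ 3 + (C (C a * X ^ 2) * X + C (C q * X ^ 3 - X)) :
      (MvPolynomial (Fin 2) k)[X][X]).natDegree = 3 := by
    apply natDegree_eq_of_degree_eq_some
    rw [degree_add_eq_left_of_degree_lt, degree_X_pow]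
    rw [degree_X_pow]
    exact_mod_cast hdeg
  refine PRES_four c φ hφ f0 hker 3 2 (by decide) (by decide) (by decide) (by decide) (by decide)
    (by decide) 3 (PRES_LI_inf hv h) (X ^ 3 + (C (C a * X ^ 2) * X + C (C q * X ^ 3 - X)))
    (monic_X_pow_add (n := 3) (by exact_mod_cast hdeg)) hnat ?_ _ ?_ P hP
  · simp only [PRES_ev, coe_eval₂RingHom, eval₂_add, eval₂_pow, eval₂_X, eval₂_C, eval₂_sub,
        eval₂_mul, RingHom.comp_apply]
    linear_combination h
  · apply le_of_eq
    rw [← Ideal.span_singleton_neg]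
    congr 2
    simp only [coe_eval₂RingHom, eval₂_add, eval₂_pow, eval₂_X, eval₂_C, eval₂_sub, eval₂_mul,
      AlgHom.toRingHom_eq_coe, RingHom.coe_coe]
    ring

end four

/-! ### transcendence -/

section tr

variable {E L : Type} [Field E] [Field L] [Algebra E L]

theorem PRES_tr_y {a q x y : L} (hx : Transcendental E x) (ha : IsAlgebraic E a)
    (hq : IsAlgebraic E q) (h : y ^ 2 = x ^ 3 + a * x + q) : Transcendental E y := by
  intro hy
  apply hx
  let B := algebraicClosure E L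
  have ha' : a ∈ B := mem_algebraicClosure_iff.mpr ha
  have hq' : q ∈ B := mem_algebraicClosure_iff.mpr hq
  have hy' : y ∈ B := mem_algebraicClosure_iff.mpr hy
  have hxB : IsAlgebraic B x := by
    let p : B[X] := X ^ 3 + (C ⟨a, ha'⟩ * X + C (⟨q, hq'⟩ - ⟨y, hy'⟩ ^ 2))
    have hdeg : (C (⟨a, ha'⟩ : B) * X + C ((⟨q, hq'⟩ : B) - (⟨y, hy'⟩ : B) ^ 2)).degree < 3 :=
      lt_of_le_of_lt degree_linear_le (by norm_num)
    refine ⟨p, (monic_X_pow_add (n := 3) (by exact_mod_cast hdeg)).ne_zero, ?_⟩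
    simp only [p, map_add, map_pow, map_mul, aeval_X, aeval_C, map_sub]
    have e1 : algebraMap B L ⟨a, ha'⟩ = a := rfl
    have e2 : algebraMap B L ⟨q, hq'⟩ = q := rfl
    have e3 : algebraMap B L ⟨y, hy'⟩ = y := rfl
    rw [e1, e2, e3]
    linear_combination -h
  exact hxB.restrictScalars E

end tr

/-! ### the charts -/

section charts

variable {k L : Type} [Field k] [IsAlgClosed k] [CharZero k] [Field L] [Algebra k L]
  {b : Fin 10 → k} {t w x y : L}

omit [IsAlgClosed k] [CharZero k] in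
theorem PRES_data (h : ES b t w x y) :
    ∃ E : Subfield L, (∀ c : k, algebraMap k L c ∈ E) ∧ t ∈ E ∧ w ∈ E ∧ Transcendental E x := by
  classical
  let F := IntermediateField.adjoin k {t}
  let E := algebraicClosure F L
  have htF : t ∈ F := IntermediateField.mem_adjoin_simple_self k t
  have ht : IsAlgebraic F t := isAlgebraic_algebraMap (⟨t, htF⟩ : F)
  have hw : IsAlgebraic F w := by
    have h2 : IsAlgebraic F (w ^ 2) := by
      rw [h.pt.e1]
      exact (ht.pow 3).add isAlgebraic_one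
    exact IsAlgebraic.of_pow (by norm_num) h2
  have hx1 : Transcendental F x := by
    rw [IntermediateField.transcendental_adjoin_iff]
    have := h.indep.transcendental_adjoin (s := {0}) (i := 1) (by simp)
    rw [Set.image_singleton] at this
    exact this
  have hx2 : AlgebraicIndependent F ![x] := algebraicIndependent_iff_transcendental.mpr hx1
  have hx3 : Transcendental E x := algebraicIndependent_iff_transcendental.mp hx2.algebraicClosure
  refine ⟨E.toSubfield, fun c => ?_, ?_, ?_, hx3⟩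
  · exact mem_algebraicClosure_iff.mpr (isAlgebraic_algebraMap (algebraMap k F c))
  · exact mem_algebraicClosure_iff.mpr ht
  · exact mem_algebraicClosure_iff.mpr hw

omit [IsAlgClosed k] [CharZero k] in
theorem PRES_phi (E : Subfield L) (hk : ∀ c : k, algebraMap k L c ∈ E) {c0 c1 : L} (h0 : c0 ∈ E)
    (h1 : c1 ∈ E) : ∃ φ : MvPolynomial (Fin 2) k →+* E,
      ∀ Q, algebraMap E L (φ Q) = MvPolynomial.aeval ![c0, c1] Q := by
  have h : ∀ Q : MvPolynomial (Fin 2) k,
      (MvPolynomial.aeval ![c0, c1] : _ →ₐ[k] L).toRingHom Q ∈ E := by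
    intro Q
    induction Q using MvPolynomial.induction_on with
    | C r => simpa using hk r
    | add p q hp hq => rw [map_add]; exact E.add_mem hp hq
    | mul_X p i hp =>
      rw [map_mul]
      refine E.mul_mem hp ?_
      fin_cases i
      · simpa using h0
      · simpa using h1
  exact ⟨RingHom.codRestrict (MvPolynomial.aeval ![c0, c1] : _ →ₐ[k] L).toRingHom E h, fun _ => rfl⟩

omit [IsAlgClosed k] [CharZero k] in
/-- the curve `w² = t³ + 1` -/
theorem PRES_ker_aff (ht : Transcendental k t) (h : w ^ 2 = t ^ 3 + 1)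
    (Q : MvPolynomial (Fin 2) k) (hQ : MvPolynomial.aeval ![t, w] Q = 0) :
    Q ∈ Ideal.span {(MvPolynomial.X 1 ^ 2 - MvPolynomial.X 0 ^ 3 - 1 : MvPolynomial (Fin 2) k)} := by
  have := PRES_two_aff (a := (0 : k)) (q := 1) (x := t) (y := w) ht (by rw [h]; simp) 0 1
    (by decide) ![t, w] rfl rfl Q hQ
  convert! this using 3
  simp only [map_zero, map_one]
  ring

omit [IsAlgClosed k] [CharZero k] in
theorem PRES_ker_inf (ht : Transcendental k t) (h : w ^ 2 = t ^ 3 + 1) (hw : w ≠ 0)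
    (Q : MvPolynomial (Fin 2) k) (hQ : MvPolynomial.aeval ![t / w, 1 / w] Q = 0) :
    Q ∈ Ideal.span {(MvPolynomial.X 1 - MvPolynomial.X 0 ^ 3 - MvPolynomial.X 1 ^ 3 :
      MvPolynomial (Fin 2) k)} := by
  have htr : Transcendental k (1 / w) := by
    have h1 : Transcendental k w := PRES_tr_y (a := 0) (q := 1) ht isAlgebraic_zero isAlgebraic_one
      (by rw [h]; ring)
    intro h2
    apply h1
    have := h2.inv
    simpa using this
  have := PRES_two_inf (a := (0 : k)) (q := 1) (v := 1 / w) (z := t / w) htr (by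
    simp only [map_zero, map_one, zero_mul, add_zero, one_mul]
    field_simp
    linear_combination -h) 1 0 (by decide) ![t / w, 1 / w] rfl rfl Q hQ
  convert! this using 3
  simp only [map_zero, map_one]
  ring

/-- `Q(X_0)` -/
noncomputable def PRES_Q2 (b : Fin 10 → k) : MvPolynomial (Fin 2) k :=
  ∑ j : Fin 10, MvPolynomial.C (b j) * MvPolynomial.X 0 ^ (j : ℕ)

/-- `Q` at infinity -/
noncomputable def PRES_QI2 (b : Fin 10 → k) : MvPolynomial (Fin 2) k :=
  .C (b 0) * .X 1 ^ 6 + .C (b 1) * .X 0 * .X 1 ^ 5 + .C (b 2) * .X 0 ^ 2 * .X 1 ^ 4 +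
    .C (b 3) * .X 0 ^ 3 * .X 1 ^ 3 + .C (b 4) * .X 0 ^ 4 * .X 1 ^ 2 + .C (b 5) * .X 0 ^ 5 * .X 1 +
    .C (b 6) * .X 0 ^ 6 + .C (b 7) * .X 0 ^ 4 * (1 - .X 1 ^ 2) +
    .C (b 8) * .X 0 ^ 2 * (1 - .X 1 ^ 2) ^ 2 +
    .C (b 9) * (1 - .X 1 ^ 2) ^ 3

omit [IsAlgClosed k] [CharZero k] in
theorem PRES_io_Q2 (b : Fin 10 → k) : PRES_io k (PRES_Q2 b) = QP b := by
  simp [PRES_io, PRES_Q2, QP]

omit [IsAlgClosed k] [CharZero k] in
theorem PRES_io_QI2 (b : Fin 10 → k) : PRES_io k (PRES_QI2 b) = QI b := by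
  simp [PRES_io, PRES_QI2, QI]

omit [IsAlgClosed k] [CharZero k] in
theorem PRES_ev_Q2 (b : Fin 10 → k) (t w : L) :
    MvPolynomial.aeval ![t, w] (PRES_Q2 b) = Qf b t := by
  simp [PRES_Q2, Qf]

omit [IsAlgClosed k] [CharZero k] in
theorem PRES_ev_QI2 (b : Fin 10 → k) (t w : L) (hw : w ≠ 0) (h : w ^ 2 = t ^ 3 + 1) :
    MvPolynomial.aeval ![t / w, 1 / w] (PRES_QI2 b) = Qf b t / w ^ 6 := by
  have e : 1 - (1 / w) ^ 2 = t ^ 3 / w ^ 2 := by
    field_simp
    linear_combination h
  simp only [PRES_QI2, Qf, Fin.sum_univ_succ, map_add, map_mul, map_pow, MvPolynomial.aeval_C,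
    MvPolynomial.aeval_X, map_sub, map_one, Matrix.cons_val_zero, Matrix.cons_val_one, e]
  simp
  field_simp
  ring

theorem st_PRES0 (hEQ : ST_EQ) : ST_PRES0 := by
  intro k L _ _ _ _ _ b t w x y h P hP
  obtain ⟨hw, hy, -⟩ := hEQ k L b t w x y h
  obtain ⟨E, hkE, htE, hwE, hxE⟩ := PRES_data h
  obtain ⟨φ, hφ⟩ := PRES_phi E hkE htE hwE
  have key := PRES_four_aff ![t, w, x, y] φ hφ (MvPolynomial.X 1 ^ 2 - MvPolynomial.X 0 ^ 3 - 1)
    (PRES_ker_aff (h.indep.transcendental 0) h.pt.e1) 1 (PRES_Q2 b) hxE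
    (by
      rw [hφ, hφ, map_one, one_mul]
      change y ^ 2 = x ^ 3 + x + MvPolynomial.aeval ![t, w] (PRES_Q2 b)
      rw [PRES_ev_Q2, h.pt.e2]) P hP
  rw [PRES_io_Q2] at key
  convert! key using 2
  simp only [fe, PRES_io]
  simp

theorem st_PRES1 (hEQ : ST_EQ) : ST_PRES1 := by
  intro k L _ _ _ _ _ b t w x y h P hP
  obtain ⟨hw, hy, -⟩ := hEQ k L b t w x y h
  obtain ⟨E, hkE, htE, hwE, hxE⟩ := PRES_data h
  obtain ⟨φ, hφ⟩ := PRES_phi E hkE htE hwE
  have hq : IsAlgebraic E (Qf b t) := by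
    have := isAlgebraic_algebraMap (A := L) (φ (PRES_Q2 b))
    rwa [hφ, PRES_ev_Q2] at this
  have htr : Transcendental E (1 / y) := by
    have h1 : Transcendental E y := PRES_tr_y (a := 1) (q := Qf b t) hxE isAlgebraic_one hq
      (by rw [h.pt.e2]; ring)
    intro h2
    apply h1
    have := h2.inv
    simpa using this
  have key := PRES_four_inf ![t, w, x / y, 1 / y] φ hφ
    (MvPolynomial.X 1 ^ 2 - MvPolynomial.X 0 ^ 3 - 1)
    (PRES_ker_aff (h.indep.transcendental 0) h.pt.e1) 1 (PRES_Q2 b) htr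
    (by
      rw [hφ, hφ, map_one, one_mul]
      change (x / y) ^ 3 + (1 / y) ^ 2 * (x / y) +
        MvPolynomial.aeval ![t, w] (PRES_Q2 b) * (1 / y) ^ 3 - 1 / y = 0
      rw [PRES_ev_Q2]
      field_simp
      linear_combination -h.pt.e2) P hP
  rw [PRES_io_Q2] at key
  convert! key using 2
  simp only [fe, PRES_io]
  simp

theorem st_PRES2 (hEQ : ST_EQ) : ST_PRES2 := by
  intro k L _ _ _ _ _ b t w x y h P hP
  obtain ⟨hw, hy, -⟩ := hEQ k L b t w x y h
  obtain ⟨E, hkE, htE, hwE, hxE⟩ := PRES_data h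
  have hsE : t / w ∈ E := E.div_mem htE hwE
  have hrE : 1 / w ∈ E := E.div_mem E.one_mem hwE
  obtain ⟨φ, hφ⟩ := PRES_phi E hkE hsE hrE
  have htr : Transcendental E (x / w ^ 2) := by
    intro h1
    apply hxE
    have h2 : IsAlgebraic E (w ^ 2) := (isAlgebraic_algebraMap (⟨w, hwE⟩ : E)).pow 2
    have := h1.mul h2
    rwa [div_mul_cancel₀ x (pow_ne_zero 2 hw)] at this
  have key := PRES_four_aff ![t / w, 1 / w, x / w ^ 2, y / w ^ 3] φ hφ
    (MvPolynomial.X 1 - MvPolynomial.X 0 ^ 3 - MvPolynomial.X 1 ^ 3)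
    (PRES_ker_inf (h.indep.transcendental 0) h.pt.e1 hw) (MvPolynomial.X 1 ^ 4) (PRES_QI2 b) htr
    (by
      rw [hφ, hφ]
      change (y / w ^ 3) ^ 2 = (x / w ^ 2) ^ 3 + MvPolynomial.aeval ![t / w, 1 / w]
        (MvPolynomial.X 1 ^ 4) * (x / w ^ 2) + MvPolynomial.aeval ![t / w, 1 / w] (PRES_QI2 b)
      rw [PRES_ev_QI2 b t w hw h.pt.e1]
      simp only [map_pow, MvPolynomial.aeval_X, Matrix.cons_val_one]
      simp only [Matrix.cons_val_fin_one]
      field_simp
      linear_combination h.pt.e2) P hP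
  rw [PRES_io_QI2] at key
  convert! key using 2
  simp only [fe, PRES_io]
  simp

theorem st_PRES3 (hEQ : ST_EQ) : ST_PRES3 := by
  intro k L _ _ _ _ _ b t w x y h P hP
  obtain ⟨hw, hy, -⟩ := hEQ k L b t w x y h
  obtain ⟨E, hkE, htE, hwE, hxE⟩ := PRES_data h
  have hsE : t / w ∈ E := E.div_mem htE hwE
  have hrE : 1 / w ∈ E := E.div_mem E.one_mem hwE
  obtain ⟨φ, hφ⟩ := PRES_phi E hkE hsE hrE
  obtain ⟨φ', hφ'⟩ := PRES_phi E hkE htE hwE
  have hq : IsAlgebraic E (Qf b t) := by
    have := isAlgebraic_algebraMap (A := L) (φ' (PRES_Q2 b))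
    rwa [hφ', PRES_ev_Q2] at this
  have hwA : IsAlgebraic E w := isAlgebraic_algebraMap (⟨w, hwE⟩ : E)
  have htr : Transcendental E (w ^ 3 / y) := by
    have h1 : Transcendental E y := PRES_tr_y (a := 1) (q := Qf b t) hxE isAlgebraic_one hq
      (by rw [h.pt.e2]; ring)
    intro h2
    apply h1
    have := h2.inv.mul (hwA.pow 3)
    rwa [inv_div, div_mul_cancel₀ y (pow_ne_zero 3 hw)] at this
  have key := PRES_four_inf ![t / w, 1 / w, x * w / y, w ^ 3 / y] φ hφ
    (MvPolynomial.X 1 - MvPolynomial.X 0 ^ 3 - MvPolynomial.X 1 ^ 3)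
    (PRES_ker_inf (h.indep.transcendental 0) h.pt.e1 hw) (MvPolynomial.X 1 ^ 4) (PRES_QI2 b) htr
    (by
      rw [hφ, hφ]
      change (x * w / y) ^ 3 + MvPolynomial.aeval ![t / w, 1 / w]
        (MvPolynomial.X 1 ^ 4) * (w ^ 3 / y) ^ 2 * (x * w / y) +
        MvPolynomial.aeval ![t / w, 1 / w] (PRES_QI2 b) * (w ^ 3 / y) ^ 3 - w ^ 3 / y = 0
      rw [PRES_ev_QI2 b t w hw h.pt.e1]
      simp only [map_pow, MvPolynomial.aeval_X, Matrix.cons_val_one]
      simp only [Matrix.cons_val_fin_one]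
      field_simp
      linear_combination (-w ^ 3) * h.pt.e2) P hP
  rw [PRES_io_QI2] at key
  convert! key using 2
  simp only [fe, PRES_io]
  simp

end charts

end Pool.Agent.Helper8.SPV
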