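import Pool.Agent.Helper8.SPV.Stmts

/-!
# ULT: the ultrapower argument
-/

set_option autoImplicit false

open Filter

namespace Pool.Agent.Helper8.SPV

/-! ### the ultrapower -/

/-- the ultrapower of `K` -/
def ULT_R (K : Type) : Type := Germ ((hyperfilter ℕ : Ultrafilter ℕ) : Filter ℕ) K

noncomputable instance ULT_field (K : Type) [Field K] : Field (ULT_R K) :=
  inferInstanceAs (Field (Germ ((hyperfilter ℕ : Ultrafilter ℕ) : Filter ℕ) K))

/-- class of a sequence -/
noncomputable def ULT_mk {K : Type} (f : ℕ → K) : ULT_R K :=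
  ((f : ℕ → K) : Germ ((hyperfilter ℕ : Ultrafilter ℕ) : Filter ℕ) K)

section api

variable {K : Type}

theorem ULT_mk_eq (f g : ℕ → K) : ULT_mk f = ULT_mk g ↔ ∀ᶠ n in (hyperfilter ℕ : Filter ℕ), f n = g n :=
  Germ.coe_eq

theorem ULT_surj (x : ULT_R K) : ∃ f : ℕ → K, x = ULT_mk f := by
  induction x using Germ.inductionOn with
  | _ f => exact ⟨f, rfl⟩

variable [Field K]

theorem ULT_mk_add (f g : ℕ → K) : ULT_mk (fun n => f n + g n) = ULT_mk f + ULT_mk g := rfl

theorem ULT_mk_mul (f g : ℕ → K) : ULT_mk (fun n => f n * g n) = ULT_mk f * ULT_mk g := rfl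

theorem ULT_mk_neg (f : ℕ → K) : ULT_mk (fun n => -f n) = -ULT_mk f := rfl

theorem ULT_mk_inv (f : ℕ → K) : ULT_mk (fun n => (f n)⁻¹) = (ULT_mk f)⁻¹ := rfl

theorem ULT_mk_div (f g : ℕ → K) : ULT_mk (fun n => f n / g n) = ULT_mk f / ULT_mk g := rfl

theorem ULT_mk_zero : ULT_mk (fun _ => (0 : K)) = 0 := rfl

theorem ULT_mk_one : ULT_mk (fun _ => (1 : K)) = 1 := rfl

theorem ULT_mk_sum {ι : Type} (s : Finset ι) (f : ι → ℕ → K) :
    ULT_mk (fun n => ∑ i ∈ s, f i n) = ∑ i ∈ s, ULT_mk (f i) := by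
  classical
  induction s using Finset.induction_on with
  | empty => simp [ULT_mk_zero]
  | insert a s ha ih =>
    rw [Finset.sum_insert ha, ← ih, ← ULT_mk_add]
    congr 1
    funext n
    rw [Finset.sum_insert ha]

/-- the constants -/
noncomputable def ULT_const (K : Type) [Field K] : K →+* ULT_R K where
  toFun c := ULT_mk fun _ => c
  map_one' := rfl
  map_mul' _ _ := rfl
  map_zero' := rfl
  map_add' _ _ := rfl

noncomputable instance ULT_alg : Algebra K (ULT_R K) := (ULT_const K).toAlgebra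

theorem ULT_algebraMap (c : K) : algebraMap K (ULT_R K) c = ULT_mk fun _ => c := rfl

end api

/-! ### the algebraic computation -/

section core

variable {k K R : Type} [Field k] [Field K] [Field R] [Algebra k K] [Algebra k R] [Algebra K R]

theorem ULT_comm (F : IntermediateField k R) (D : Derivation K R R) (hDF : ∀ φ ∈ F, D φ ∈ F)
    (ds : R → R) (ds_add : ∀ x y, ds (x + y) = ds x + ds y)
    (ds_mul : ∀ x y, ds (x * y) = x * ds y + y * ds x) (ds_F : ∀ φ ∈ F, ds φ = 0) (δ : K → K)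
    (ds_K : ∀ f, ds (algebraMap K R f) = algebraMap K R (δ f))
    {ι : Type} (s : Finset ι) (φ : ι → R) (hφ : ∀ i, φ i ∈ F) (f : ι → K) :
    D (ds (∑ i ∈ s, φ i * algebraMap K R (f i))) =
      ds (D (∑ i ∈ s, φ i * algebraMap K R (f i))) := by
  classical
  have h0 : ds 0 = 0 := ds_F 0 F.zero_mem
  have e1 : ∀ φ ∈ F, ∀ f, ds (φ * algebraMap K R f) = φ * algebraMap K R (δ f) := by
    intro φ hφ f
    rw [ds_mul, ds_K, ds_F φ hφ, mul_zero, add_zero]
  have e2 : ∀ φ f, D (φ * algebraMap K R f) = D φ * algebraMap K R f := by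
    intro φ f
    rw [D.leibniz, D.map_algebraMap, smul_zero, zero_add, smul_eq_mul, mul_comm]
  induction s using Finset.induction_on with
  | empty => simp [h0]
  | insert a s ha ih =>
    rw [Finset.sum_insert ha, ds_add, map_add, map_add, ds_add, ih, e1 _ (hφ a), e2, e2,
      e1 _ (hDF _ (hφ a))]

theorem ULT_comm_div (D : Derivation K R R) (ds : R → R)
    (ds_mul : ∀ x y, ds (x * y) = x * ds y + y * ds x)
    (ds_add : ∀ x y, ds (x + y) = ds x + ds y) {a d : R} (hd : d ≠ 0)
    (ha : D (ds a) = ds (D a)) (hd' : D (ds d) = ds (D d)) :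
    D (ds (a / d)) = ds (D (a / d)) := by
  have h1 : a = a / d * d := (div_mul_cancel₀ a hd).symm
  set x := a / d with hx
  rw [h1, ds_mul, D.leibniz, map_add, ds_add, D.leibniz, D.leibniz, smul_eq_mul, smul_eq_mul,
    smul_eq_mul, smul_eq_mul, smul_eq_mul, smul_eq_mul, ds_mul, ds_mul, hd'] at ha
  have h2 : d * (D (ds x) - ds (D x)) = 0 := by linear_combination ha
  rcases mul_eq_zero.mp h2 with h3 | h3
  · exact absurd h3 hd
  · exact sub_eq_zero.mp h3

theorem ULT_calc [CharZero R] (F : IntermediateField k R) (D : Derivation K R R)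
    (ds : R → R) (ds_add : ∀ x y, ds (x + y) = ds x + ds y)
    (ds_mul : ∀ x y, ds (x * y) = x * ds y + y * ds x) (ds_F : ∀ φ ∈ F, ds φ = 0)
    {T W A : R} (hW : W ≠ 0) (hTW : W ^ 2 = T ^ 3 + 1) (hT : ds T = 2 * W * A)
    (hc : D (ds T) = ds (D T)) : ds (D T / (2 * W)) = D A := by
  have h2 : (2 : R) ≠ 0 := two_ne_zero
  have h2F : ds 2 = 0 := ds_F 2 (by exact_mod_cast F.natCast_mem 2)
  have h1F : ds 1 = 0 := ds_F 1 F.one_mem
  have hD2 : D 2 = 0 := by
    have := D.map_natCast 2
    simpa using this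
  have hdsW : ds W = 3 * T ^ 2 * A := by
    have e : ds (W ^ 2) = ds (T ^ 3 + 1) := by rw [hTW]
    have e3 : T ^ 3 = T * (T * T) := by ring
    rw [pow_two, ds_mul, ds_add, h1F, e3, ds_mul, ds_mul, hT] at e
    have : 2 * W * (ds W - 3 * T ^ 2 * A) = 0 := by linear_combination e
    rcases mul_eq_zero.mp this with h | h
    · exact absurd h (mul_ne_zero h2 hW)
    · exact sub_eq_zero.mp h
  set τ := D T / (2 * W) with hτ
  have hDT : D T = τ * (2 * W) := by
    rw [hτ, div_mul_cancel₀]; exact mul_ne_zero h2 hW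
  have hDW : D W = 3 * T ^ 2 * τ := by
    have e : D (W ^ 2) = D (T ^ 3 + 1) := by rw [hTW]
    have e3 : T ^ 3 = T * (T * T) := by ring
    rw [pow_two, D.leibniz, map_add, D.map_one_eq_zero, e3, D.leibniz, D.leibniz, hDT] at e
    simp only [smul_eq_mul] at e
    have : 2 * W * (D W - 3 * T ^ 2 * τ) = 0 := by linear_combination e
    rcases mul_eq_zero.mp this with h | h
    · exact absurd h (mul_ne_zero h2 hW)
    · exact sub_eq_zero.mp h
  have e1 : ds (D T) = τ * (2 * ds W) + 2 * W * ds τ := by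
    rw [hDT, ds_mul, ds_mul, h2F, mul_zero, add_zero]
  have e2 : D (ds T) = 2 * W * D A + A * (2 * D W) := by
    rw [hT, D.leibniz, D.leibniz, hD2]
    simp only [smul_eq_mul, mul_zero, add_zero]
  rw [e1, e2, hdsW, hDW] at hc
  have : 2 * W * (ds τ - D A) = 0 := by linear_combination -hc
  rcases mul_eq_zero.mp this with h | h
  · exact absurd h (mul_ne_zero h2 hW)
  · exact sub_eq_zero.mp h

end core

/-! ### the derivation on the ultrapower -/

section ds

variable {K : Type} [Field K]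

/-- componentwise map -/
noncomputable def ULT_ds (δ : K → K) (x : ULT_R K) : ULT_R K := Germ.map δ x

theorem ULT_ds_mk (δ : K → K) (f : ℕ → K) : ULT_ds δ (ULT_mk f) = ULT_mk fun n => δ (f n) := rfl

theorem ULT_ds_add (δ : K → K) (h : ∀ x y, δ (x + y) = δ x + δ y) (x y : ULT_R K) :
    ULT_ds δ (x + y) = ULT_ds δ x + ULT_ds δ y := by
  obtain ⟨f, rfl⟩ := ULT_surj x
  obtain ⟨g, rfl⟩ := ULT_surj y
  rw [← ULT_mk_add, ULT_ds_mk, ULT_ds_mk, ULT_ds_mk, ← ULT_mk_add]
  congr 1
  funext n
  exact h _ _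

theorem ULT_ds_mul (δ : K → K) (h : ∀ x y, δ (x * y) = x * δ y + y * δ x) (x y : ULT_R K) :
    ULT_ds δ (x * y) = x * ULT_ds δ y + y * ULT_ds δ x := by
  obtain ⟨f, rfl⟩ := ULT_surj x
  obtain ⟨g, rfl⟩ := ULT_surj y
  rw [← ULT_mk_mul, ULT_ds_mk, ULT_ds_mk, ULT_ds_mk, ← ULT_mk_mul, ← ULT_mk_mul, ← ULT_mk_add]
  congr 1
  funext n
  exact h _ _

end ds

/-! ### the main result -/

theorem st_ULT (hL : ST_LDD) : ST_ULT := by
  classical
  intro k K _ _ _ _ _ δ H V _ _ T W hTW hW hTH _ hAV hinj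
  letI iA : Algebra k (ULT_R K) := ((ULT_const K).comp (algebraMap k K)).toAlgebra
  have iS : IsScalarTower k K (ULT_R K) := IsScalarTower.of_algebraMap_eq fun _ => rfl
  have iK : CharZero K := charZero_of_injective_algebraMap (algebraMap k K).injective
  have iR : CharZero (ULT_R K) := charZero_of_injective_algebraMap (algebraMap K (ULT_R K)).injective
  have hak : ∀ c : k, algebraMap k (ULT_R K) c = ULT_mk fun _ => algebraMap k K c := fun _ => rfl
  let F : IntermediateField k (ULT_R K) :=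
    { carrier := {x | ∃ c : ℕ → k, x = ULT_mk fun n => algebraMap k K (c n)}
      mul_mem' := by
        rintro _ _ ⟨c, rfl⟩ ⟨d, rfl⟩
        exact ⟨fun n => c n * d n, by rw [← ULT_mk_mul]; simp only [map_mul]⟩
      one_mem' := ⟨fun _ => 1, by simp only [map_one]; rfl⟩
      add_mem' := by
        rintro _ _ ⟨c, rfl⟩ ⟨d, rfl⟩
        exact ⟨fun n => c n + d n, by rw [← ULT_mk_add]; simp only [map_add]⟩
      zero_mem' := ⟨fun _ => 0, by simp only [map_zero]; rfl⟩
      algebraMap_mem' := fun c => ⟨fun _ => c, rfl⟩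
      inv_mem' := by
        rintro _ ⟨c, rfl⟩
        exact ⟨fun n => (c n)⁻¹, by rw [← ULT_mk_inv]; simp only [map_inv₀]⟩ }
  have hF : ∀ x, x ∈ F ↔ ∃ c : ℕ → k, x = ULT_mk fun n => algebraMap k K (c n) := fun _ => Iff.rfl
  -- linear disjointness
  have hld : ∀ (n : ℕ) (f : Fin n → K), LinearIndependent k f →
      LinearIndependent F fun i => algebraMap K (ULT_R K) (f i) := by
    intro n f hf
    rw [Fintype.linearIndependent_iff] at hf ⊢
    intro g hg
    have hg' : ∀ i, ∃ c : ℕ → k, (g i : ULT_R K) = ULT_mk fun n => algebraMap k K (c n) :=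
      fun i => (g i).2
    choose c hc using hg'
    have h1 : ULT_mk (fun n => ∑ i, algebraMap k K (c i n) * f i) = ULT_mk fun _ => (0 : K) := by
      rw [ULT_mk_sum, ULT_mk_zero, ← hg]
      refine Finset.sum_congr rfl fun i _ => ?_
      rw [ULT_mk_mul, ← hc i]
      rfl
    rw [ULT_mk_eq] at h1
    intro i
    apply Subtype.ext
    rw [hc i]
    change _ = ULT_mk fun _ => (0 : K)
    rw [ULT_mk_eq]
    refine h1.mono fun n hn => ?_
    have := hf (fun i => c i n) (by simpa only [Algebra.smul_def] using hn) i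
    rw [this, map_zero]
  -- coordinates
  set A : ℕ → K := fun i => δ (T i) / (2 * W i) with hA
  let v := Module.finBasis k V
  let α : Fin (Module.finrank k V) → ℕ → k := fun j i => v.repr ⟨A i, hAV i⟩ j
  have hAα : ∀ i, A i = ∑ j, algebraMap k K (α j i) * (v j : K) := by
    intro i
    have := congrArg (fun x : V => (x : K)) (v.sum_repr ⟨A i, hAV i⟩)
    simp only [Submodule.coe_sum, Submodule.coe_smul] at this
    rw [← this]
    exact Finset.sum_congr rfl fun j _ => Algebra.smul_def _ _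
  let αs : Fin (Module.finrank k V) → ULT_R K := fun j => ULT_mk fun i => algebraMap k K (α j i)
  have hαF : ∀ j, αs j ∈ F := fun j => ⟨α j, rfl⟩
  have hAs : ULT_mk A = ∑ j, αs j * algebraMap K (ULT_R K) (v j : K) := by
    have : A = fun i => ∑ j, algebraMap k K (α j i) * (v j : K) := funext hAα
    rw [this, ULT_mk_sum]
    rfl
  have hex : ∃ j, αs j ∉ Set.range (algebraMap k (ULT_R K)) := by
    by_contra hcon
    push Not at hcon
    choose c hc using hcon
    have h1 : ∀ j, ∀ᶠ i in (hyperfilter ℕ : Filter ℕ), algebraMap k K (c j) = algebraMap k K (α j i) := by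
      intro j
      have := hc j
      rw [hak, ULT_mk_eq] at this
      exact this
    have h2 : ∀ᶠ i in (hyperfilter ℕ : Filter ℕ), ∀ j, algebraMap k K (c j) = algebraMap k K (α j i) :=
      Filter.eventually_all.mpr h1
    have h3 : {i | ∀ j, algebraMap k K (c j) = algebraMap k K (α j i)}.Finite := by
      apply Set.Subsingleton.finite
      intro i hi i' hi'
      apply hinj
      change A i = A i'
      rw [hAα i, hAα i']
      exact Finset.sum_congr rfl fun j _ => by rw [← hi j, ← hi' j]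
    exact h3.notMem_hyperfilter h2
  obtain ⟨j₀, hj₀⟩ := hex
  obtain ⟨D, hDF, hD1⟩ := hL k K (ULT_R K) F hld (αs j₀) (hαF j₀) hj₀
  -- componentwise derivation
  have dadd := ULT_ds_add (K := K) δ (fun x y => map_add δ x y)
  have dmul := ULT_ds_mul (K := K) δ (fun x y => by
    rw [δ.leibniz, smul_eq_mul, smul_eq_mul])
  have dF : ∀ φ ∈ F, ULT_ds δ φ = 0 := by
    rintro _ ⟨c, rfl⟩
    rw [ULT_ds_mk]
    simp only [Derivation.map_algebraMap]
    rfl
  have dK : ∀ f : K, ULT_ds δ (algebraMap K (ULT_R K) f) = algebraMap K (ULT_R K) (δ f) :=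
    fun _ => rfl
  -- commutation on T
  have hcomm : D (ULT_ds δ (ULT_mk T)) = ULT_ds δ (D (ULT_mk T)) := by
    choose a ha d hd hd0 had using hTH
    let h := Module.finBasis k H
    have hrep : ∀ (a : ℕ → K) (ha : ∀ i, a i ∈ H), D (ULT_ds δ (ULT_mk a)) = ULT_ds δ (D (ULT_mk a)) := by
      intro a ha
      have e : ULT_mk a = ∑ l, (ULT_mk fun i => algebraMap k K (h.repr ⟨a i, ha i⟩ l)) *
          algebraMap K (ULT_R K) (h l : K) := by
        have e1 : a = fun i => ∑ l, algebraMap k K (h.repr ⟨a i, ha i⟩ l) * (h l : K) := by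
          funext i
          have := congrArg (fun x : H => (x : K)) (h.sum_repr ⟨a i, ha i⟩)
          simp only [Submodule.coe_sum, Submodule.coe_smul] at this
          conv_lhs => rw [← this]
          exact Finset.sum_congr rfl fun j _ => Algebra.smul_def _ _
        conv_lhs => rw [e1]
        rw [ULT_mk_sum]
        rfl
      rw [e]
      exact ULT_comm F D hDF (ULT_ds δ) dadd dmul dF δ dK Finset.univ _
        (fun l => ⟨fun i => h.repr ⟨a i, ha i⟩ l, rfl⟩) _
    have e2 : ULT_mk T = ULT_mk a / ULT_mk d := by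
      rw [← ULT_mk_div]
      congr 1
      funext i
      exact had i
    have hd' : ULT_mk d ≠ 0 := by
      intro h0
      rw [← ULT_mk_zero, ULT_mk_eq] at h0
      obtain ⟨i, hi⟩ := h0.exists
      exact hd0 i hi
    rw [e2]
    exact ULT_comm_div D (ULT_ds δ) dmul dadd hd' (hrep a ha) (hrep d hd)
  have hWs : ULT_mk W ≠ 0 := by
    intro h0
    rw [← ULT_mk_zero, ULT_mk_eq] at h0
    obtain ⟨i, hi⟩ := h0.exists
    exact hW i hi
  have hTWs : (ULT_mk W) ^ 2 = (ULT_mk T) ^ 3 + 1 := by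
    have : ULT_mk (fun i => W i * W i) = ULT_mk (fun i => T i * (T i * T i) + 1) := by
      congr 1
      funext i
      have := hTW i
      linear_combination this
    rw [ULT_mk_mul, ULT_mk_add (fun i => T i * (T i * T i)) (fun _ => 1), ULT_mk_mul, ULT_mk_mul,
      ULT_mk_one] at this
    linear_combination this
  have hdT : ULT_ds δ (ULT_mk T) = 2 * ULT_mk W * ULT_mk A := by
    have h2 : (2 : ULT_R K) = ULT_mk fun _ => (2 : K) := by
      have := map_ofNat (algebraMap K (ULT_R K)) 2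
      rw [← this]
      rfl
    rw [ULT_ds_mk, h2, ← ULT_mk_mul, ← ULT_mk_mul]
    congr 1
    funext i
    simp only [hA]
    field_simp [hW i]
  have hfin := ULT_calc F D (ULT_ds δ) dadd dmul dF hWs hTWs hdT hcomm
  obtain ⟨τ, hτ⟩ := ULT_surj (D (ULT_mk T) / (2 * ULT_mk W))
  rw [hτ, ULT_ds_mk, hAs, map_sum] at hfin
  have hβ : ∀ j, ∃ β : ℕ → k, D (αs j) = ULT_mk fun n => algebraMap k K (β n) :=
    fun j => hDF _ (hαF j)
  choose β hβ using hβ
  have e5 : ∀ j, D (αs j * algebraMap K (ULT_R K) (v j : K)) =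
      ULT_mk fun n => algebraMap k K (β j n) * (v j : K) := by
    intro j
    rw [D.leibniz, D.map_algebraMap, smul_zero, zero_add, smul_eq_mul, hβ j, ULT_mk_mul, mul_comm]
    rfl
  rw [Finset.sum_congr rfl fun j _ => e5 j, ← ULT_mk_sum, ULT_mk_eq] at hfin
  have h6 : ∀ᶠ n in (hyperfilter ℕ : Filter ℕ), algebraMap k K (β j₀ n) = 1 := by
    have := hβ j₀
    rw [hD1, ← ULT_mk_one, ULT_mk_eq] at this
    exact this.mono fun n hn => hn.symm
  obtain ⟨n, hn1, hn2⟩ := (hfin.and h6).exists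
  have e7 : δ (τ n) = ((∑ j, β j n • v j : V) : K) := by
    rw [hn1, Submodule.coe_sum]
    exact Finset.sum_congr rfl fun j _ => by rw [Submodule.coe_smul, Algebra.smul_def]
  refine ⟨τ n, ?_, ?_⟩
  · rw [e7]
    exact Subtype.property _
  · intro h0
    rw [e7] at h0
    have h8 : (∑ j, β j n • v j : V) = 0 := Subtype.ext h0
    have h9 := Fintype.linearIndependent_iff.mp v.linearIndependent (fun j => β j n) h8 j₀
    rw [h9, map_zero] at hn2
    exact zero_ne_one hn2

end Pool.Agent.Helper8.SPV
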